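import Pool.Agent.MNT.StmtsA

/-!
# Squad MNT, row FRO: a minimiser of a quadratic form on the simplex
-/

set_option autoImplicit false

namespace Pool.Agent.MNT.H69

open Finset

variable {J : Type} [Fintype J]

/-- the quadratic form -/
noncomputable def qf (E : J → J → ℝ) (ν : J → ℝ) : ℝ := ∑ j, ∑ k, ν j * ν k * E j k

theorem qf_comb [DecidableEq J] (E : J → J → ℝ) (hE : ∀ j k, E j k = E k j) (μ : J → ℝ) (j : J)
    (t : ℝ) :
    qf E (fun i => (1 - t) * μ i + t * (if i = j then 1 else 0)) =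
      (1 - t) ^ 2 * qf E μ + 2 * t * (1 - t) * (∑ k, μ k * E j k) + t ^ 2 * E j j := by
  unfold qf
  have h1 : ∀ a b : J, ((1 - t) * μ a + t * (if a = j then 1 else 0)) *
      ((1 - t) * μ b + t * (if b = j then 1 else 0)) * E a b =
      (1 - t) ^ 2 * (μ a * μ b * E a b) + t * (1 - t) * ((if a = j then 1 else 0) * (μ b * E a b))
        + t * (1 - t) * ((if b = j then 1 else 0) * (μ a * E a b))
        + t ^ 2 * ((if a = j then 1 else 0) * ((if b = j then 1 else 0) * E a b)) := by
    intro a b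
    ring
  simp only [h1, Finset.sum_add_distrib, ← Finset.mul_sum]
  have h2 : ∑ a, (if a = j then (1 : ℝ) else 0) * ∑ b, μ b * E a b = ∑ k, μ k * E j k := by
    simp
  have h3 : ∑ a, ∑ b, (if b = j then (1 : ℝ) else 0) * (μ a * E a b) = ∑ k, μ k * E j k := by
    apply Finset.sum_congr rfl
    intro a _
    rw [hE j a]
    simp
  have h4 : ∑ a, (if a = j then (1 : ℝ) else 0) * ∑ b, (if b = j then (1 : ℝ) else 0) * E a b =
      E j j := by
    simp
  rw [h2, h3, h4]
  ring

theorem fro : FroStmt := by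
  classical
  intro J _ _ E hE
  have hne : (stdSimplex ℝ J).Nonempty := by
    obtain ⟨j⟩ := (inferInstance : Nonempty J)
    exact ⟨Pi.single j 1, single_mem_stdSimplex ℝ j⟩
  have hcont : ContinuousOn (qf E) (stdSimplex ℝ J) := by
    apply Continuous.continuousOn
    unfold qf
    fun_prop
  obtain ⟨μ, hμ, hmin⟩ := (isCompact_stdSimplex ℝ J).exists_isMinOn hne hcont
  have hμ0 : ∀ j, 0 ≤ μ j := hμ.1
  have hμ1 : ∑ j, μ j = 1 := hμ.2
  have hmin' : ∀ ν : J → ℝ, (∀ j, 0 ≤ ν j) → ∑ j, ν j = 1 → qf E μ ≤ qf E ν :=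
    fun ν h0 h1 => hmin ⟨h0, h1⟩
  have hg : ∀ j, qf E μ ≤ ∑ k, μ k * E j k := by
    intro j
    by_contra hlt
    push Not at hlt
    set g := ∑ k, μ k * E j k with hgdef
    set q := qf E μ with hqdef
    have hd : 0 < q - g := by linarith
    have key : ∀ t : ℝ, 0 ≤ t → t ≤ 1 →
        q ≤ (1 - t) ^ 2 * q + 2 * t * (1 - t) * g + t ^ 2 * E j j := by
      intro t ht0 ht1
      have h := hmin' (fun i => (1 - t) * μ i + t * (if i = j then 1 else 0)) (by
        intro i
        have h1 : 0 ≤ 1 - t := by linarith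
        have h2 : (0 : ℝ) ≤ (if i = j then 1 else 0) := by split_ifs <;> norm_num
        have h3 := mul_nonneg h1 (hμ0 i)
        have h4 := mul_nonneg ht0 h2
        linarith) (by
        rw [Finset.sum_add_distrib, ← Finset.mul_sum, ← Finset.mul_sum, hμ1]
        simp)
      rwa [qf_comb E hE μ j t] at h
    set C := |q - 2 * g + E j j| with hC
    have hC0 : 0 ≤ C := abs_nonneg _
    set t : ℝ := min 1 ((q - g) / (C + 1)) with htdef
    have ht1 : t ≤ 1 := min_le_left _ _
    have ht0 : 0 < t := lt_min one_pos (div_pos hd (by linarith))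
    have ht2 : t * (C + 1) ≤ q - g := by
      have : t ≤ (q - g) / (C + 1) := min_le_right _ _
      rwa [le_div_iff₀ (by linarith)] at this
    have h := key t ht0.le ht1
    have h5 : 0 ≤ t * (-2 * (q - g) + t * (q - 2 * g + E j j)) := by nlinarith
    have h6 : 0 ≤ -2 * (q - g) + t * (q - 2 * g + E j j) := by
      by_contra h7
      push Not at h7
      have := mul_neg_of_pos_of_neg ht0 h7
      linarith
    have h8 : t * (q - 2 * g + E j j) ≤ t * C :=
      mul_le_mul_of_nonneg_left (le_abs_self _) ht0.le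
    have h9 : t * C ≤ t * (C + 1) := by nlinarith
    linarith
  have hsum : ∑ j, μ j * ((∑ k, μ k * E j k) - qf E μ) = 0 := by
    have h1 : ∑ j, μ j * (∑ k, μ k * E j k) = qf E μ := by
      unfold qf
      apply Finset.sum_congr rfl
      intro j _
      rw [Finset.mul_sum]
      apply Finset.sum_congr rfl
      intro k _
      ring
    simp only [mul_sub, Finset.sum_sub_distrib]
    rw [h1, ← Finset.sum_mul, hμ1]
    ring
  have hz := (Finset.sum_eq_zero_iff_of_nonneg (fun j _ =>
    mul_nonneg (hμ0 j) (sub_nonneg.2 (hg j)))).1 hsum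
  refine ⟨μ, hμ0, hμ1, fun ν h0 h1 => hmin' ν h0 h1, ?_⟩
  intro j hj
  have h := hz j (Finset.mem_univ j)
  have h1 : (∑ k, μ k * E j k) - qf E μ = 0 := by
    rcases mul_eq_zero.1 h with h | h
    · exact absurd h hj
    · exact h
  exact (sub_eq_zero.1 h1).le

end Pool.Agent.MNT.H69
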